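import Pool.Agent.Y262.NU.All

/-!
# Quantum unique ergodicity is not uniform on negatively curved surfaces

There are a closed surface with smooth metrics of strictly negative curvature which converge in `C^∞`
(to a metric of nonpositive curvature with a flat cylinder), and normalized eigenfunctions of the
Laplacian of these metrics with eigenvalues tending to infinity, which stay at a distance at least
`c > 0` from equidistribution. The metrics are `exp (2 (t f + τ ψ)) g` with fixed smooth functions `f`,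
`ψ` and `t, τ → 0`. So there is no function `r (λ)` which tends to zero and bounds the deviation from
equidistribution of all eigenfunctions with eigenvalue `λ`, uniformly for the negatively curved metrics
in this family: equidistribution, if it holds for each negatively curved surface, is not uniform on
sets of metrics which are bounded in `C^∞`.

How a surface is described. `Ω` is an open set of the plane with a smooth conformal metric
`exp (2 φ) |dz|²`, and `pr : Ω → M` is a continuous, open, surjective and locally injective map onto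
the compact metric space `M`; points with the same image are related by a holomorphic local isometry
over `M`. So `M` is a closed surface and the metric descends to `M`.

Proof. On the limit surface `g` there are eigenfunctions `u_j` which are not equidistributed (see
`MP_ed6ab2_an`, `ErgodicNonQUE` and `FlatCylinderNonQUE`). A function `ψ` which is strictly subharmonic
near the flat cylinder makes the curvature of `exp (2 τ ψ) g` negative, and a test function `f` which
detects that the `u_j` are not equidistributed can be chosen strictly subharmonic there, too. If all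
eigenfunctions of the metrics `exp (2 (t f + τ ψ)) g`, `0 < t, τ < ε`, with large eigenvalues were
`c`-close to equidistribution with respect to `f`, all eigenvalue branches would decrease with
logarithmic speed close to the mean value of `f` in the direction `t`; these bounds survive in the limit
`τ → 0`, and at `t = τ = 0` the largest and the smallest branch of the cluster of `u_j` show that
`∫ f u_j²` is close to the mean value, for every eigenfunction in the eigenspace (no simplicity of
eigenvalues is used). The parts were written by about ten agents, see `Pool/Agent/Y262/NU/All.lean`.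
-/

set_option autoImplicit false

open Set Filter Topology MeasureTheory
open scoped ContDiff

noncomputable section

namespace Pool.Agent.Results.MP_07c750_an.NoUniformQUE

/-- the partial derivative with respect to `x` -/
def px (φ : ℂ → ℝ) (z : ℂ) : ℝ := fderiv ℝ φ z 1

/-- the partial derivative with respect to `y` -/
def py (φ : ℂ → ℝ) (z : ℂ) : ℝ := fderiv ℝ φ z Complex.I

/-- the nonnegative Laplace-Beltrami operator of the metric `exp (2 φ) |dz|²` -/
def lapl (φ v : ℂ → ℝ) (z : ℂ) : ℝ := -(Real.exp (-2 * φ z) * (px (px v) z + py (py v) z))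

/-- the Gauss curvature of the metric `exp (2 φ) |dz|²` -/
def curvature (φ : ℂ → ℝ) (z : ℂ) : ℝ := lapl φ φ z

section

variable {M : Type}

/-- `γ` is a holomorphic local isometry on the ball around `z` with radius `r`, over the surface, and
`γ z = w` -/
def LocIso (Ω : Set ℂ) (φ : ℂ → ℝ) (pr : ℂ → M) (r : ℝ) (γ : ℂ → ℂ) (z w : ℂ) : Prop :=
  0 < r ∧ Metric.ball z r ⊆ Ω ∧ DifferentiableOn ℂ γ (Metric.ball z r) ∧ γ z = w ∧
    ∀ ζ ∈ Metric.ball z r, γ ζ ∈ Ω ∧ pr (γ ζ) = pr ζ ∧ deriv γ ζ ≠ 0 ∧
      φ (γ ζ) + Real.log ‖deriv γ ζ‖ = φ ζ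

/-- `M` is a surface with a Riemannian metric which is covered by means of `pr` by the plane domain
`Ω` with the smooth metric `exp (2 φ) |dz|²` -/
structure IsSurface [TopologicalSpace M] (Ω : Set ℂ) (φ : ℂ → ℝ) (pr : ℂ → M) : Prop where
  domain : IsOpen Ω
  smooth : ContDiffOn ℝ ∞ φ Ω
  cont : ContinuousOn pr Ω
  open_map : ∀ O : Set ℂ, IsOpen O → O ⊆ Ω → IsOpen (pr '' O)
  surj : pr '' Ω = univ
  loc_inj : ∀ z ∈ Ω, ∃ r : ℝ, 0 < r ∧ Metric.ball z r ⊆ Ω ∧ InjOn pr (Metric.ball z r)
  iso : ∀ z ∈ Ω, ∀ w ∈ Ω, pr z = pr w → ∃ (r : ℝ) (γ : ℂ → ℂ), LocIso Ω φ pr r γ z w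

/-- `μ` is the area of the surface -/
def IsAreaM [MeasurableSpace M] (Ω : Set ℂ) (φ : ℂ → ℝ) (pr : ℂ → M) (μ : Measure M) : Prop :=
  ∀ B : Set ℂ, MeasurableSet B → B ⊆ Ω → InjOn pr B →
    μ (pr '' B) = ∫⁻ z in B, ENNReal.ofReal (Real.exp (2 * φ z))

/-- `u` is a smooth real eigenfunction of the Laplacian of the surface with the eigenvalue `lam` -/
def IsEigenfunction (Ω : Set ℂ) (φ : ℂ → ℝ) (pr : ℂ → M) (lam : ℝ) (u : M → ℝ) : Prop :=
  ContDiffOn ℝ ∞ (fun z => u (pr z)) Ω ∧
    ∀ z ∈ Ω, lapl φ (fun z => u (pr z)) z = lam * u (pr z)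

end

/-- **Equidistribution is not uniform in negative curvature.** There are a closed connected surface
`M` with a smooth metric `exp (2 φ) |dz|²` of nonpositive curvature, smooth functions `f`, `ψ` on `M` and
`c > 0`, such that for every `ε > 0` there are `t, τ ∈ (0, ε)` such that the metric
`exp (2 (t f + τ ψ)) exp (2 φ) |dz|²` has strictly negative curvature, and a smooth real eigenfunction
`u` of its Laplacian with eigenvalue `lam > 1 / ε` and `∫ u² = 1` for which `∫ f u²` differs at least
by `c` from the mean value of `f`. -/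
theorem result : ∃ (M : Type) (_ : MetricSpace M) (_ : CompactSpace M) (_ : ConnectedSpace M)
    (_ : MeasurableSpace M) (_ : BorelSpace M) (Ω : Set ℂ) (φ : ℂ → ℝ) (pr : ℂ → M)
    (f ψ : M → ℝ) (c : ℝ),
    IsSurface Ω φ pr ∧ (∀ z ∈ Ω, curvature φ z ≤ 0) ∧ Continuous f ∧ Continuous ψ ∧
    ContDiffOn ℝ ∞ (fun z => f (pr z)) Ω ∧ ContDiffOn ℝ ∞ (fun z => ψ (pr z)) Ω ∧ 0 < c ∧
    ∀ ε : ℝ, 0 < ε → ∃ (t τ lam : ℝ) (φ' : ℂ → ℝ) (μ : Measure M) (u : M → ℝ),
      0 < t ∧ t < ε ∧ 0 < τ ∧ τ < ε ∧ 1 / ε < lam ∧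
      φ' = (fun z => φ z + t * f (pr z) + τ * ψ (pr z)) ∧
      IsSurface Ω φ' pr ∧ (∀ z ∈ Ω, curvature φ' z < 0) ∧ IsAreaM Ω φ' pr μ ∧
      IsEigenfunction Ω φ' pr lam u ∧ ∫ x, (u x) ^ 2 ∂μ = 1 ∧
      c ≤ |∫ x, f x * (u x) ^ 2 ∂μ - (∫ x, f x ∂μ) / μ.real univ| := by
  obtain ⟨M, P, i1, i2, i3, i4, i5, i6, i7, Ω, φ, pr, q, f, ψ, c, hUT, hK, hf, hψ, hfs, hψs, hc, hall⟩ :=
    Pool.Agent.Y262.NU.concl
  have key : ∀ φ : ℂ → ℝ, Pool.Agent.Y262.EG.IsUT Ω φ pr q → IsSurface Ω φ pr := by
    intro φ hUT
    refine ⟨hUT.opn, hUT.smooth, hUT.contp, hUT.opnp, hUT.surjp, hUT.injp, ?_⟩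
    intro z hz w hw h
    obtain ⟨θ', r, γ, h1, h2, h3, h4, h5, -⟩ := hUT.deck z hz w hw h 0
    exact ⟨r, γ, h1, h2, h3, h4, h5⟩
  refine ⟨M, i1, i2, i3, i4, i5, Ω, φ, pr, f, ψ, c, key φ hUT, hK, hf, hψ, hfs, hψs, hc,
    fun ε hε => ?_⟩
  obtain ⟨t, τ, lam, μ, u, ht, htε, hτ, hτε, hlam, hUT1, hK1, hA1, hE1, hn, hd⟩ := hall ε hε
  exact ⟨t, τ, lam, _, μ, u, ht, htε, hτ, hτε, hlam, rfl, key _ hUT1, hK1, hA1, hE1, hn, hd⟩

end Pool.Agent.Results.MP_07c750_an.NoUniformQUE
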