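import Pool.Agent.Y264.QR.All

/-!
# Quantum unique ergodicity in the mean for random conformal metrics

Let `(M, g)` be a closed surface with a continuous Riemannian metric (for instance a smooth metric
of negative curvature). For a continuous function `φ` on `M` consider the metric `exp φ · g` and an
orthonormal basis `u φ 0, u φ 1, ...` of `L²` which consists of eigenfunctions of its Laplacian,
ordered by the eigenvalue; the choice of the bases is arbitrary.

Let `P` be a Borel probability measure on `C(M)` which is quasi-invariant under the translations by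
the multiples of the functions of a set `S` with dense linear span (for instance a nondegenerate
Gaussian measure and its Cameron-Martin space). Then

* for all large `j` the random measures `(u φ j)² dA_φ` are measurable functions of `φ` (up to
  `P`-null sets), and for every continuous function `f` the functions
  `φ ↦ ∫ f (u φ j)² dA_φ` tend to the mean value of `f` for the area of `exp φ · g`, weakly in
  `L¹ (P)` as `j → ∞`: there is no exceptional sequence of eigenvalues, and the average over every
  event (for instance the event that the metric has negative curvature) is taken by any integrable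
  function `χ`;
* along every fixed sequence of indices and for `P`-almost every metric: if
  `∫ f (u φ (J k))² dA_φ` converges, then its limit is the mean value of `f`.

Idea of the proof. In dimension two the Dirichlet integral is conformally invariant, so the
logarithmic derivative of the `j`-th eigenvalue `E_j (φ + t h)` in `t` is `- ∫ h (u j)² dA` for almost
every `t`, for every choice of the basis (at a point where all branches are differentiable the
quadratic form of `h` is a multiple of the form of `1` on every eigenspace). By Weyl's law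
`E_j (φ) ~ 4 π j / Area`, which is proved here for continuous metrics and weights by bracketing with
almost isometric squares, the logarithms of `E_j / j` converge, and so do the integrals of their
derivatives over all intervals. Fubini's theorem and quasi-invariance give the result.

The parts of the proof were written by helpers 147, 155, 183, 219, 252, 268, 319, 378, 390, 401,
419, 689, 708, 764, 941, on the basis of the spectral theory of helper262's project QE (30 agents,
see `Pool/Agent/Y262/QE/All.lean`).
-/

set_option autoImplicit false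

open Set Filter Topology MeasureTheory
open Pool.Agent.Y262.QE

noncomputable section

namespace Pool.Agent.Results.MP_07c750_an.RandomConformalMetrics

/-- `u 0, u 1, ...` is an orthonormal basis of `L² (μ)` which consists of eigenfunctions of the
Laplacian of the surface `D` with the area `μ`; the eigenvalues `lam 0 ≤ lam 1 ≤ ...` are ordered -/
structure IsEigenbasis {M : Type} [MeasurableSpace M] (D : Data M) (μ : Measure M)
    (u : ℕ → M → ℝ) (lam : ℕ → ℝ) : Prop where
  eig : ∀ j, D.IsEig μ (lam j) (u j)
  mono : Monotone lam
  orth : ∀ i j, ∫ x, u i x * u j x ∂μ = if i = j then 1 else 0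
  total : ∀ f : M → ℝ, MemLp f 2 μ → (∀ j, ∫ x, f x * u j x ∂μ = 0) → f =ᵐ[μ] 0

/-- the surface with the metric `exp φ · g` -/
def surf {M : Type} [TopologicalSpace M] (D : Data M) (φ : C(M, ℝ)) : Data M :=
  D.conf fun x => Real.exp (φ x)

/-- the area of the metric `exp φ · g` -/
def area {M : Type} [TopologicalSpace M] [MeasurableSpace M] (μ : Measure M) (φ : C(M, ℝ)) :
    Measure M :=
  wm μ fun x => Real.exp (φ x)

theorem result (M : Type) [MetricSpace M] [CompactSpace M] [MeasurableSpace M] [BorelSpace M]
    [Nonempty M] (μ : Measure M) (D : Data M) (hD : D.IsSurf μ) :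
    (∀ φ : C(M, ℝ), (surf D φ).IsSurf (area μ φ) ∧
      ∃ (u : ℕ → M → ℝ) (lam : ℕ → ℝ), IsEigenbasis (surf D φ) (area μ φ) u lam) ∧
    ∀ [MeasurableSpace C(M, ℝ)] [BorelSpace C(M, ℝ)] (P : Measure C(M, ℝ)) [IsProbabilityMeasure P]
      (S : Set C(M, ℝ)), Dense (Submodule.span ℝ S : Set C(M, ℝ)) →
      (∀ h ∈ S, ∀ t : ℝ, P.map (fun φ => φ + t • h) ≪ P) →
    ∀ (u : C(M, ℝ) → ℕ → M → ℝ) (lam : C(M, ℝ) → ℕ → ℝ),
      (∀ φ, IsEigenbasis (surf D φ) (area μ φ) (u φ) (lam φ)) →
    (∃ J : ℕ, ∀ (f : C(M, ℝ)) (j : ℕ), J ≤ j →
      AEStronglyMeasurable (fun φ => ∫ x, f x * (u φ j x) ^ 2 ∂(area μ φ)) P) ∧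
    ∀ f : C(M, ℝ),
      (∀ χ : C(M, ℝ) → ℝ, Integrable χ P →
        Tendsto (fun j => ∫ φ, χ φ * ∫ x, f x * (u φ j x) ^ 2 ∂(area μ φ) ∂P) atTop
          (𝓝 (∫ φ, χ φ * ((∫ x, f x ∂(area μ φ)) / (area μ φ).real univ) ∂P))) ∧
      ∀ J : ℕ → ℕ, Tendsto J atTop atTop → ∀ᵐ φ ∂P, ∀ L : ℝ,
        Tendsto (fun k => ∫ x, f x * (u φ (J k) x) ^ 2 ∂(area μ φ)) atTop (𝓝 L) →
          L = (∫ x, f x ∂(area μ φ)) / (area μ φ).real univ := by
  refine ⟨fun φ => ⟨(Pool.Agent.Y262.QE.tConf M μ D hD _
    (Real.continuous_exp.comp φ.continuous) fun x => Real.exp_pos _).1, ?_⟩, ?_⟩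
  · obtain ⟨u, lam, h⟩ := Pool.Agent.Y264.QR.tEx M μ D hD inferInstance φ
    exact ⟨u, lam, h.eig, h.mono, h.orth, h.total⟩
  · intro _ _ P _ S hS hP u lam hu
    exact Pool.Agent.Y264.QR.tTop M μ D hD P S hS hP u lam
      fun φ => ⟨(hu φ).eig, (hu φ).mono, (hu φ).orth, (hu φ).total⟩

end Pool.Agent.Results.MP_07c750_an.RandomConformalMetrics
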